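import Pool.Agent.Helper75.KS.GoalsA

/-!
# Kahn-Saks: tails of laws with log-concave tails
-/

namespace Pool.Agent.Helper72.KS

open MeasureTheory Filter Topology Set Finset
open Pool.Agent.Helper44.KS Pool.Agent.Helper75.KS

/-- the real number inequality -/
theorem tail_num {x l s : ℝ} (hx : 0 ≤ x) (hl : l = 6 / (s + 3)) (hs : 3 < s)
    {a b : ℝ} (ha : 2 / 3 ≤ a) (hb : b ≤ 1 / 3) (ha1 : a ≤ 1)
    (h : a ^ (1 - l) * x ^ l ≤ b) : x ≤ (2 : ℝ) ^ (-(s / 6)) := by
  have hs3 : 0 < s + 3 := by linarith
  have hl0 : 0 < l := by rw [hl]; positivity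
  have hl1 : l < 1 := by rw [hl, div_lt_one hs3]; linarith
  have h1 : (2 / 3 : ℝ) ≤ a ^ (1 - l) := by
    calc (2 / 3 : ℝ) ≤ a := ha
      _ = a ^ (1 : ℝ) := (Real.rpow_one a).symm
      _ ≤ a ^ (1 - l) := Real.rpow_le_rpow_of_exponent_ge (by linarith) ha1 (by linarith)
  have hxl : 0 ≤ x ^ l := Real.rpow_nonneg hx l
  have h2 : x ^ l ≤ 1 / 2 := by nlinarith
  have h3 : x = (x ^ l) ^ (1 / l) := by
    rw [← Real.rpow_mul hx, mul_one_div_cancel hl0.ne', Real.rpow_one]
  have h4 : 1 / l = (s + 3) / 6 := by rw [hl, one_div_div]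
  calc x = (x ^ l) ^ (1 / l) := h3
    _ ≤ (1 / 2 : ℝ) ^ (1 / l) := Real.rpow_le_rpow hxl h2 (by positivity)
    _ = (2 : ℝ) ^ (-((s + 3) / 6)) := by
        rw [h4, Real.rpow_neg (by norm_num), one_div, Real.inv_rpow (by norm_num)]
    _ ≤ (2 : ℝ) ^ (-(s / 6)) :=
        Real.rpow_le_rpow_of_exponent_le (by norm_num) (by linarith)

theorem lta : LtaStmt := by
  intro ν hν hint s hs
  have := hν.prob
  set m := mea ν with hm
  set M := mdv ν with hM
  have hint' : Integrable (fun u : ℝ => |u - m|) ν := (hint.sub (integrable_const m)).abs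
  have hM0 : 0 ≤ M := integral_nonneg (fun _ => abs_nonneg _)
  have hle1 : ∀ A : Set ℝ, ν.real A ≤ 1 := fun A => measureReal_le_one
  rcases eq_or_lt_of_le hM0 with h0 | hpos
  · have h1 : (fun u : ℝ => |u - m|) =ᵐ[ν] 0 :=
      (integral_eq_zero_iff_of_nonneg (fun _ => abs_nonneg _) hint').1 (by rw [← hM] at *; exact h0.symm)
    have h2 : ν.real {u | s * M < |u - m|} = 0 := by
      rw [measureReal_def, ENNReal.toReal_eq_zero_iff]
      left
      rw [← h0, mul_zero]
      have h3 : ∀ᵐ u ∂ν, ¬ (0 < |u - m|) := by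
        filter_upwards [h1] with u hu
        have : |u - m| = 0 := hu
        rw [this]; exact lt_irrefl _
      exact (ae_iff.1 h3) ▸ (by congr 1; ext u; simp)
    rw [h2]; positivity
  · have hmk : ν.real {u | 3 * M ≤ |u - m|} ≤ 1 / 3 := by
      have h1 := mul_meas_ge_le_integral_of_nonneg (μ := ν)
        (f := fun u : ℝ => |u - m|) (Filter.Eventually.of_forall fun _ => abs_nonneg _) hint' (3 * M)
      have h2 : 3 * M * ν.real {u | 3 * M ≤ |u - m|} ≤ M := h1
      have h3 : M * (3 * ν.real {u | 3 * M ≤ |u - m|} - 1) ≤ 0 := by linarith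
      have h4 := nonpos_of_mul_nonpos_right h3 hpos
      linarith
    rcases le_or_gt s 3 with hs3 | hs3
    · refine (hle1 _).trans ?_
      have : (2 : ℝ) ^ (-1 : ℝ) ≤ (2 : ℝ) ^ (-(s / 6)) :=
        Real.rpow_le_rpow_of_exponent_le (by norm_num) (by linarith)
      rw [Real.rpow_neg_one] at this
      linarith
    · have hl : (6 : ℝ) / (s + 3) = 6 / (s + 3) := rfl
      set l : ℝ := 6 / (s + 3) with hldef
      have hs3' : 0 < s + 3 := by linarith
      have hl0 : 0 < l := by positivity
      have hl1 : l < 1 := by rw [hldef, div_lt_one hs3']; linarith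
      have hlm : l * (s + 3) = 6 := by rw [hldef]; field_simp
      -- right side
      have hR : ν.real (Ioi (m + s * M)) ≤ (2 : ℝ) ^ (-(s / 6)) := by
        refine tail_num (a := ν.real (Ioi (m - 3 * M))) (b := ν.real (Ioi (m + 3 * M)))
          measureReal_nonneg hldef hs3 ?_ ?_ (hle1 _) ?_
        · have h5 : ν.real (Iic (m - 3 * M)) ≤ 1 / 3 := by
            refine (measureReal_mono ?_).trans hmk
            intro u hu
            rw [Set.mem_Iic] at hu
            show 3 * M ≤ |u - m|
            rw [abs_sub_comm]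
            exact le_trans (by linarith) (le_abs_self _)
          have h6 : ν.real (Ioi (m - 3 * M)) = 1 - ν.real (Iic (m - 3 * M)) := by
            rw [← compl_Iic, measureReal_compl measurableSet_Iic, probReal_univ]
          linarith
        · refine (measureReal_mono ?_).trans hmk
          intro u hu
          rw [Set.mem_Ioi] at hu
          show 3 * M ≤ |u - m|
          exact le_trans (by linarith) (le_abs_self _)
        · have h7 := hν.up (m - 3 * M) (m + s * M) l hl0 hl1
          have h8 : (1 - l) * (m - 3 * M) + l * (m + s * M) = m + 3 * M := by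
            have : (1 - l) * (m - 3 * M) + l * (m + s * M) = m - 3 * M + (l * (s + 3)) * M := by ring
            rw [this, hlm]; ring
          rw [h8] at h7
          exact h7
      have hL : ν.real (Iio (m - s * M)) ≤ (2 : ℝ) ^ (-(s / 6)) := by
        refine tail_num (a := ν.real (Iio (m + 3 * M))) (b := ν.real (Iio (m - 3 * M)))
          measureReal_nonneg hldef hs3 ?_ ?_ (hle1 _) ?_
        · have h5 : ν.real (Ici (m + 3 * M)) ≤ 1 / 3 := by
            refine (measureReal_mono ?_).trans hmk
            intro u hu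
            rw [Set.mem_Ici] at hu
            show 3 * M ≤ |u - m|
            exact le_trans (by linarith) (le_abs_self _)
          have h6 : ν.real (Iio (m + 3 * M)) = 1 - ν.real (Ici (m + 3 * M)) := by
            rw [← compl_Ici, measureReal_compl measurableSet_Ici, probReal_univ]
          linarith
        · refine (measureReal_mono ?_).trans hmk
          intro u hu
          rw [Set.mem_Iio] at hu
          show 3 * M ≤ |u - m|
          rw [abs_sub_comm]
          exact le_trans (by linarith) (le_abs_self _)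
        · have h7 := hν.lo (m + 3 * M) (m - s * M) l hl0 hl1
          have h8 : (1 - l) * (m + 3 * M) + l * (m - s * M) = m - 3 * M := by
            have : (1 - l) * (m + 3 * M) + l * (m - s * M) = m + 3 * M - (l * (s + 3)) * M := by ring
            rw [this, hlm]; ring
          rw [h8] at h7
          exact h7
      have hsub : {u : ℝ | s * M < |u - m|} ⊆ Ioi (m + s * M) ∪ Iio (m - s * M) := by
        intro u hu
        have hu' : s * M < |u - m| := hu
        rcases lt_abs.1 hu' with h | h
        · left; rw [Set.mem_Ioi]; linarith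
        · right; rw [Set.mem_Iio]; linarith
      calc ν.real {u | s * M < |u - m|} ≤ ν.real (Ioi (m + s * M) ∪ Iio (m - s * M)) :=
            measureReal_mono hsub
        _ ≤ ν.real (Ioi (m + s * M)) + ν.real (Iio (m - s * M)) := measureReal_union_le _ _
        _ ≤ 2 * (2 : ℝ) ^ (-(s / 6)) := by linarith

end Pool.Agent.Helper72.KS
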